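import Mathlib
import Pool.Agent.H964.CW.Stm3

/-! # Project CW: task CHA, the backward induction over the blocks -/

set_option autoImplicit false

open MeasureTheory ProbabilityTheory Filter Finset

namespace Pool.Agent.H597.CW

open Pool.Agent.H964.QC Pool.Agent.H964.CW

/-! ## The exponent -/

theorem e0_pos : 0 < e0 := by unfold e0; positivity

theorem e0_le : e0 ≤ 1 / 800 := by unfold e0; norm_num

/-! ## Square integrable functions -/

section sq

variable {Ω : Type} [MeasurableSpace Ω] {P : Measure Ω} [IsProbabilityMeasure P]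

omit [IsProbabilityMeasure P] in
theorem sq_mono {f : Ω → ℝ} {v v' : ℝ} (h : Sq P f v) (hv : v ≤ v') : Sq P f v' :=
  ⟨h.1, h.2.trans hv⟩

theorem sq_zero {v : ℝ} (hv : 0 ≤ v) : Sq P (fun _ : Ω => (0 : ℝ)) v := by
  refine ⟨memLp_const 0, ?_⟩
  simpa using hv

theorem sq_add_const {f : Ω → ℝ} {v : ℝ} (c : ℝ) (h : Sq P f v) :
    Sq P (fun ω => f ω + c) (2 * v + 2 * c ^ 2) := by
  have hc : MemLp (fun _ : Ω => c) 2 P := memLp_const c
  have hfc : MemLp (fun ω => f ω + c) 2 P := h.1.add hc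
  have i1 : Integrable (fun ω => 2 * f ω ^ 2) P := h.1.integrable_sq.const_mul 2
  have i2 : Integrable (fun _ : Ω => 2 * c ^ 2) P := integrable_const _
  have i3 : Integrable (fun ω => 2 * f ω ^ 2 + 2 * c ^ 2) P := i1.add i2
  refine ⟨hfc, ?_⟩
  have h1 : ∫ ω, (f ω + c) ^ 2 ∂P ≤ ∫ ω, (2 * f ω ^ 2 + 2 * c ^ 2) ∂P := by
    apply integral_mono hfc.integrable_sq i3
    intro ω
    simp only
    nlinarith [sq_nonneg (f ω - c)]
  have h2 : ∫ ω, (2 * f ω ^ 2 + 2 * c ^ 2) ∂P = 2 * ∫ ω, f ω ^ 2 ∂P + 2 * c ^ 2 := by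
    rw [integral_add i1 i2, integral_const_mul]
    simp
  have h3 := h.2
  linarith

omit [IsProbabilityMeasure P] in
theorem sq_add3 {f g h : Ω → ℝ} {a b c : ℝ} (hf : Sq P f a) (hg : Sq P g b) (hh : Sq P h c) :
    Sq P (fun ω => f ω + g ω + h ω) (3 * (a + b + c)) := by
  have hs : MemLp (fun ω => f ω + g ω + h ω) 2 P := (hf.1.add hg.1).add hh.1
  refine ⟨hs, ?_⟩
  have i1 := hf.1.integrable_sq
  have i2 := hg.1.integrable_sq
  have i3 := hh.1.integrable_sq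
  have i4 : Integrable (fun ω => f ω ^ 2 + g ω ^ 2) P := i1.add i2
  have i5 : Integrable (fun ω => f ω ^ 2 + g ω ^ 2 + h ω ^ 2) P := i4.add i3
  have i6 : Integrable (fun ω => 3 * (f ω ^ 2 + g ω ^ 2 + h ω ^ 2)) P := i5.const_mul 3
  have h1 : ∫ ω, (f ω + g ω + h ω) ^ 2 ∂P ≤ ∫ ω, 3 * (f ω ^ 2 + g ω ^ 2 + h ω ^ 2) ∂P := by
    apply integral_mono hs.integrable_sq i6
    intro ω
    simp only
    nlinarith [sq_nonneg (f ω - g ω), sq_nonneg (g ω - h ω), sq_nonneg (f ω - h ω)]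
  have h2 : ∫ ω, 3 * (f ω ^ 2 + g ω ^ 2 + h ω ^ 2) ∂P =
      3 * (∫ ω, f ω ^ 2 ∂P + ∫ ω, g ω ^ 2 ∂P + ∫ ω, h ω ^ 2 ∂P) := by
    rw [integral_const_mul, integral_add i4 i3, integral_add i1 i2]
  have h3 := hf.2
  have h4 := hg.2
  have h5 := hh.2
  linarith

/-- the variance is at most the second moment -/
theorem var_le {f : Ω → ℝ} {v : ℝ} (h : Sq P f v) :
    ∫ ω, (f ω - ∫ ω', f ω' ∂P) ^ 2 ∂P ≤ v := by
  set m := ∫ ω', f ω' ∂P with hm
  have hi : Integrable f P := h.1.integrable (by norm_num)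
  have i2 := h.1.integrable_sq
  have i3 : Integrable (fun ω => 2 * m * f ω) P := hi.const_mul (2 * m)
  have i4 : Integrable (fun ω => f ω ^ 2 - 2 * m * f ω) P := i2.sub i3
  have i5 : Integrable (fun _ : Ω => m ^ 2) P := integrable_const _
  have h1 : ∫ ω, (f ω - m) ^ 2 ∂P = ∫ ω, f ω ^ 2 ∂P - m ^ 2 := by
    have : ∀ ω, (f ω - m) ^ 2 = f ω ^ 2 - 2 * m * f ω + m ^ 2 := fun ω => by ring
    simp_rw [this]
    rw [integral_add i4 i5, integral_sub i2 i3, integral_const_mul, ← hm]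
    simp
    ring
  have h3 := h.2
  nlinarith [sq_nonneg m]

end sq

/-! ## Elementary inequalities -/

theorem log_div_lower {L L' : ℝ} (hL : 0 < L) (hL' : 0 < L') :
    (L - L') / L ≤ Real.log (L / L') := by
  have h := Real.log_le_sub_one_of_pos (show 0 < L' / L by positivity)
  rw [Real.log_div hL'.ne' hL.ne'] at h
  rw [Real.log_div hL.ne' hL'.ne']
  have h2 : (L - L') / L = 1 - L' / L := by field_simp
  linarith

theorem log_div_upper {L L' : ℝ} (hL : 0 < L) (hL' : 0 < L') :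
    Real.log (L / L') ≤ (L - L') / L' := by
  have h := Real.log_le_sub_one_of_pos (show 0 < L / L' by positivity)
  have h2 : (L - L') / L' = L / L' - 1 := by field_simp
  linarith

/-- logarithm and square root -/
theorem log_le_half {L : ℝ} (hL : 0 < L) : Real.log L ≤ L ^ (1 / 2 : ℝ) := by
  have h0 : 0 < L ^ (1 / 2 : ℝ) := Real.rpow_pos_of_pos hL _
  have h1 : Real.log (L ^ (1 / 2 : ℝ)) = 1 / 2 * Real.log L := Real.log_rpow hL _
  have h2 := Real.log_le_sub_one_of_pos (show 0 < L ^ (1 / 2 : ℝ) / 2 by positivity)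
  rw [Real.log_div h0.ne' (by norm_num), h1] at h2
  have h3 : Real.log 2 < 1 := by
    have := Real.log_two_lt_d9
    linarith
  linarith

theorem rpow_sub_one' {L : ℝ} (hL : 0 < L) (p : ℝ) : L ^ (p - 1) = L ^ p / L := by
  rw [Real.rpow_sub_one hL.ne']

/-- the bounds for one block -/
theorem num_log {L L' : ℝ} (hL' : 0 < L') (h1 : L ^ (2 * e0) ≤ L - L') (h2 : L - L' ≤ L ^ (2 * e0) + 1)
    (h3 : L / 2 ≤ L') (hL : 1 ≤ L) :
    L ^ (2 * e0 - 1) ≤ Real.log (L / L') ∧ Real.log (L / L') ≤ 4 * L ^ (2 * e0 - 1) := by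
  have hL0 : 0 < L := by linarith
  have hx : 1 ≤ L ^ (2 * e0) := Real.one_le_rpow hL (by have := e0_pos; linarith)
  rw [rpow_sub_one' hL0]
  constructor
  · refine le_trans ?_ (log_div_lower hL0 hL')
    gcongr
  · refine (log_div_upper hL0 hL').trans ?_
    rw [div_le_iff₀ hL']
    have : 4 * (L ^ (2 * e0) / L) * (L / 2) ≤ 4 * (L ^ (2 * e0) / L) * L' := by
      gcongr
    have h4 : 4 * (L ^ (2 * e0) / L) * (L / 2) = 2 * L ^ (2 * e0) := by
      field_simp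
      ring
    linarith

theorem num_up {L L' Le C K : ℝ} (hLe : 0 < Le) (hL' : 0 < L') (hL : 0 < L) (hCK : C ≤ K)
    (h1 : L ^ (2 * e0 - 1) ≤ Real.log (L / L')) (hK : 0 ≤ K) :
    C * L ^ (2 * e0 - 1) + K * Real.log (L' / Le) ≤ K * Real.log (L / Le) := by
  have h2 : Real.log (L / Le) = Real.log (L / L') + Real.log (L' / Le) := by
    rw [Real.log_div hL.ne' hLe.ne', Real.log_div hL.ne' hL'.ne', Real.log_div hL'.ne' hLe.ne']
    ring
  rw [h2]
  have h3 : C * L ^ (2 * e0 - 1) ≤ K * Real.log (L / L') := by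
    calc C * L ^ (2 * e0 - 1) ≤ K * L ^ (2 * e0 - 1) := by gcongr
      _ ≤ K * Real.log (L / L') := by gcongr
  linarith

/-- the error of the approximation by the martingale part -/
theorem num_pow {L L' : ℝ} (hL' : 0 < L') (hL : 0 < L) (h1 : L ^ (2 * e0) ≤ L - L') :
    e0 / 2 * L ^ (e0 / 2) * L ^ (e0 - 1) ≤ L' ^ (-(e0 / 2)) - L ^ (-(e0 / 2)) := by
  have he := e0_pos
  have hq : 0 < L' / L := by positivity
  have h2 : L' ^ (-(e0 / 2)) = L ^ (-(e0 / 2)) * (L' / L) ^ (-(e0 / 2)) := by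
    rw [← Real.mul_rpow hL.le hq.le]
    congr 1
    field_simp
  have h3 : 1 + e0 / 2 * ((L - L') / L) ≤ (L' / L) ^ (-(e0 / 2)) := by
    rw [Real.rpow_def_of_pos hq]
    have h4 := Real.add_one_le_exp (Real.log (L' / L) * -(e0 / 2))
    have h5 := log_div_lower hL hL'
    have h6 : Real.log (L' / L) = - Real.log (L / L') := by
      rw [Real.log_div hL.ne' hL'.ne', Real.log_div hL'.ne' hL.ne']
      ring
    rw [h6] at h4
    rw [h6]
    nlinarith
  have hp : 0 < L ^ (-(e0 / 2)) := Real.rpow_pos_of_pos hL _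
  have h7 : L ^ (-(e0 / 2)) * (1 + e0 / 2 * ((L - L') / L)) ≤ L' ^ (-(e0 / 2)) := by
    rw [h2]
    gcongr
  have h8 : e0 / 2 * L ^ (e0 / 2) * L ^ (e0 - 1) ≤ L ^ (-(e0 / 2)) * (e0 / 2 * ((L - L') / L)) := by
    have h9 : L ^ (2 * e0) / L ≤ (L - L') / L := by gcongr
    have h10 : L ^ (-(e0 / 2)) * (e0 / 2 * (L ^ (2 * e0) / L)) ≤
        L ^ (-(e0 / 2)) * (e0 / 2 * ((L - L') / L)) := by gcongr
    refine le_trans (le_of_eq ?_) h10
    rw [← rpow_sub_one' hL]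
    have h11 : L ^ (-(e0 / 2)) * (e0 / 2 * L ^ (2 * e0 - 1)) =
        e0 / 2 * (L ^ (-(e0 / 2)) * L ^ (2 * e0 - 1)) := by ring
    rw [h11, ← Real.rpow_add hL, mul_assoc, ← Real.rpow_add hL]
    congr 2
    ring
  linarith

/-- the lower bound of the second moment of the martingale part -/
theorem num_lo {L L' Le K vr q E : ℝ} (hK : 1 ≤ K) (hL1 : 1 ≤ L) (hLe : 1 ≤ Le) (hLeL' : Le ≤ L')
    (hL'L : L' ≤ L) (h1 : L ^ (2 * e0 - 1) ≤ Real.log (L / L'))
    (hvr : 2 / K * Real.log (L / L') ≤ vr) (hq : 1 - L ^ (-(3 / 2) : ℝ) ≤ q)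
    (hE1 : 0 ≤ 1 / K * Real.log (L' / Le) - K → vr + (1 / K * Real.log (L' / Le) - K) * q ≤ E)
    (hE2 : vr ≤ E) : 1 / K * Real.log (L / Le) - K ≤ E := by
  have hL0 : 0 < L := by linarith
  have hLe0 : 0 < Le := by linarith
  have hL'0 : 0 < L' := by linarith
  have hK0 : 0 < K := by linarith
  have h2 : Real.log (L / Le) = Real.log (L / L') + Real.log (L' / Le) := by
    rw [Real.log_div hL0.ne' hLe0.ne', Real.log_div hL0.ne' hL'0.ne', Real.log_div hL'0.ne' hLe0.ne']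
    ring
  have h3 : 0 < L ^ (2 * e0 - 1) := Real.rpow_pos_of_pos hL0 _
  have h4 : 0 < Real.log (L / L') := by linarith
  have h5 : 2 / K * Real.log (L / L') = 1 / K * Real.log (L / L') + 1 / K * Real.log (L / L') := by ring
  have h6 : 0 < 1 / K * Real.log (L / L') := by positivity
  rw [h2]
  by_cases hlo : 0 ≤ 1 / K * Real.log (L' / Le) - K
  · have h7 := hE1 hlo
    have h8 : (1 / K * Real.log (L' / Le) - K) * (1 - L ^ (-(3 / 2) : ℝ)) ≤
        (1 / K * Real.log (L' / Le) - K) * q := mul_le_mul_of_nonneg_left hq hlo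
    have h9 : 1 / K * Real.log (L' / Le) - K ≤ 1 / K * L ^ (1 / 2 : ℝ) := by
      have h10 : Real.log (L' / Le) ≤ Real.log L := by
        apply Real.log_le_log (by positivity)
        rw [div_le_iff₀ hLe0]
        nlinarith
      have h11 := log_le_half hL0
      have h12 : 1 / K * Real.log (L' / Le) ≤ 1 / K * L ^ (1 / 2 : ℝ) := by
        have : Real.log (L' / Le) ≤ L ^ (1 / 2 : ℝ) := by linarith
        gcongr
      linarith
    have h13 : 0 < L ^ (-(3 / 2) : ℝ) := Real.rpow_pos_of_pos hL0 _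
    have h14 : (1 / K * Real.log (L' / Le) - K) * L ^ (-(3 / 2) : ℝ) ≤
        1 / K * L ^ (1 / 2 : ℝ) * L ^ (-(3 / 2) : ℝ) := mul_le_mul_of_nonneg_right h9 h13.le
    have h15 : L ^ (1 / 2 : ℝ) * L ^ (-(3 / 2) : ℝ) ≤ L ^ (2 * e0 - 1) := by
      rw [← Real.rpow_add hL0]
      apply Real.rpow_le_rpow_of_exponent_le hL1
      have := e0_pos
      linarith
    have h16 : 1 / K * L ^ (1 / 2 : ℝ) * L ^ (-(3 / 2) : ℝ) ≤ 1 / K * Real.log (L / L') := by
      rw [mul_assoc]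
      have : L ^ (1 / 2 : ℝ) * L ^ (-(3 / 2) : ℝ) ≤ Real.log (L / L') := h15.trans h1
      gcongr
    nlinarith
  · push Not at hlo
    nlinarith

/-- the bound for the remainder -/
theorem num_R {L L' A C ε β : ℝ} (hL' : 0 < L') (hL : 0 < L) (h1 : L ^ (2 * e0) ≤ L - L') (hA : 1 ≤ A)
    (hC : 1 ≤ C) (hε : ε = C * L ^ (e0 - 1)) (hε1 : ε ≤ 1) (hβ : β = A * L ^ (e0 - 1))
    (hbig : 4 * C + 2 ≤ e0 / 2 * L ^ (e0 / 2)) :
    (1 + ε) * (A * (2 - L' ^ (-(e0 / 2))) + β) + ε + ε ^ 2 ≤ A * (2 - L ^ (-(e0 / 2))) := by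
  have hx : 0 < L ^ (e0 - 1) := Real.rpow_pos_of_pos hL _
  have hu : 0 < L ^ (-(e0 / 2)) := Real.rpow_pos_of_pos hL _
  have hu' : 0 < L' ^ (-(e0 / 2)) := Real.rpow_pos_of_pos hL' _
  have h2 := num_pow hL' hL h1
  set x := L ^ (e0 - 1) with hxd
  set u := L ^ (-(e0 / 2)) with hud
  set u' := L' ^ (-(e0 / 2)) with hud'
  have h3 : (4 * C + 2) * x ≤ u' - u := by
    refine le_trans ?_ h2
    exact mul_le_mul_of_nonneg_right hbig hx.le
  have hε0 : 0 ≤ ε := by rw [hε]; positivity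
  have hβ0 : 0 ≤ β := by rw [hβ]; positivity
  have h4 : ε ^ 2 ≤ ε := by nlinarith
  have h5 : ε * β ≤ β := by nlinarith
  have h6 : ε * (A * (2 - u')) ≤ 2 * (A * ε) := by
    have : 0 ≤ ε * A * u' := by positivity
    nlinarith
  have h7 : ε ≤ A * ε := by nlinarith
  have h8 : (1 + ε) * (A * (2 - u') + β) + ε + ε ^ 2 ≤ A * (2 - u') + 4 * (A * ε) + 2 * β := by
    nlinarith
  have h9 : A * (2 - u') + 4 * (A * ε) + 2 * β = A * (2 - u' + (4 * C + 2) * x) := by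
    rw [hε, hβ]; ring
  rw [h9] at h8
  refine h8.trans ?_
  have : 2 - u' + (4 * C + 2) * x ≤ 2 - u := by linarith
  exact mul_le_mul_of_nonneg_left this (by linarith)

/-- the bound for the cost of the bad weights -/
theorem num_beta {L L' A CV a' : ℝ} (hL' : 1 ≤ L') (hLL : L' ≤ L) (hA : 1 ≤ A)
    (hCV : 1 ≤ CV) (ha : |a'| ≤ Real.log L) (hbig : 243 * (12 * CV + 1) + 3 ≤ L ^ (1 / 4 : ℝ)) :
    3 * (CV * (12 * A) * (1 + Real.log L') ^ 2 * L ^ (-(3 / 2) : ℝ) + L ^ (-2 : ℝ) +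
      a' ^ 2 * L ^ (-(3 / 2) : ℝ)) ≤ A * L ^ (e0 - 1) := by
  have hL : 1 ≤ L := hL'.trans hLL
  have hL0 : 0 < L := by linarith
  have hlog : 0 ≤ Real.log L := Real.log_nonneg hL
  have hlog' : 0 ≤ Real.log L' := Real.log_nonneg hL'
  have hll : Real.log L' ≤ Real.log L := Real.log_le_log (by linarith) hLL
  have h8 : 1 ≤ L ^ (1 / 8 : ℝ) := Real.one_le_rpow hL (by norm_num)
  have h1 : 1 + Real.log L ≤ 9 * L ^ (1 / 8 : ℝ) := by
    have := Real.log_le_rpow_div hL0.le (show (0 : ℝ) < 1 / 8 by norm_num)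
    have h2 : L ^ (1 / 8 : ℝ) / (1 / 8) = 8 * L ^ (1 / 8 : ℝ) := by ring
    linarith
  have h2 : (1 + Real.log L) ^ 2 ≤ 81 * L ^ (1 / 4 : ℝ) := by
    have h3 : (1 + Real.log L) ^ 2 ≤ (9 * L ^ (1 / 8 : ℝ)) ^ 2 := by gcongr
    have h4 : (L ^ (1 / 8 : ℝ)) ^ 2 = L ^ (1 / 4 : ℝ) := by
      rw [← Real.rpow_natCast, ← Real.rpow_mul hL0.le]
      norm_num
    calc (1 + Real.log L) ^ 2 ≤ (9 * L ^ (1 / 8 : ℝ)) ^ 2 := h3
      _ = 81 * (L ^ (1 / 8 : ℝ)) ^ 2 := by ring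
      _ = 81 * L ^ (1 / 4 : ℝ) := by rw [h4]
  have hx : 0 < L ^ (-(3 / 2) : ℝ) := Real.rpow_pos_of_pos hL0 _
  have h5 : L ^ (1 / 4 : ℝ) * L ^ (-(3 / 2) : ℝ) = L ^ (-(5 / 4) : ℝ) := by
    rw [← Real.rpow_add hL0]; norm_num
  have h6 : L ^ (-2 : ℝ) ≤ L ^ (-(5 / 4) : ℝ) :=
    Real.rpow_le_rpow_of_exponent_le hL (by norm_num)
  have h7 : (1 + Real.log L) ^ 2 * L ^ (-(3 / 2) : ℝ) ≤ 81 * L ^ (-(5 / 4) : ℝ) := by
    calc (1 + Real.log L) ^ 2 * L ^ (-(3 / 2) : ℝ) ≤ 81 * L ^ (1 / 4 : ℝ) * L ^ (-(3 / 2) : ℝ) := by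
          gcongr
      _ = 81 * L ^ (-(5 / 4) : ℝ) := by rw [mul_assoc, h5]
  have h9 : (1 + Real.log L') ^ 2 * L ^ (-(3 / 2) : ℝ) ≤ 81 * L ^ (-(5 / 4) : ℝ) := by
    refine le_trans ?_ h7
    gcongr
  have h10 : a' ^ 2 * L ^ (-(3 / 2) : ℝ) ≤ 81 * L ^ (-(5 / 4) : ℝ) := by
    refine le_trans ?_ h7
    have : a' ^ 2 ≤ (1 + Real.log L) ^ 2 := by
      rw [← sq_abs a']
      have := abs_nonneg a'
      gcongr
      linarith
    gcongr
  have h11 : 0 < L ^ (-(5 / 4) : ℝ) := Real.rpow_pos_of_pos hL0 _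
  have h12 : L ^ (-(5 / 4) : ℝ) * L ^ (1 / 4 : ℝ) ≤ L ^ (e0 - 1) := by
    rw [← Real.rpow_add hL0]
    apply Real.rpow_le_rpow_of_exponent_le hL
    have := e0_pos
    linarith
  have h13 : (243 * (12 * CV + 1) + 3) * L ^ (-(5 / 4) : ℝ) ≤ L ^ (e0 - 1) := by
    refine le_trans ?_ h12
    rw [mul_comm]
    gcongr
  have h14 : CV * (12 * A) * (1 + Real.log L') ^ 2 * L ^ (-(3 / 2) : ℝ) ≤
      CV * (12 * A) * (81 * L ^ (-(5 / 4) : ℝ)) := by
    rw [mul_assoc (CV * (12 * A))]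
    have : 0 ≤ CV * (12 * A) := by positivity
    gcongr
  have h15 : L ^ (-(5 / 4) : ℝ) ≤ A * L ^ (-(5 / 4) : ℝ) := by nlinarith
  have h16 : 3 * (CV * (12 * A) * (81 * L ^ (-(5 / 4) : ℝ)) + A * L ^ (-(5 / 4) : ℝ) +
      81 * (A * L ^ (-(5 / 4) : ℝ))) = A * ((243 * (12 * CV + 1) + 3) * L ^ (-(5 / 4) : ℝ)) := by
    ring
  have h17 : A * ((243 * (12 * CV + 1) + 3) * L ^ (-(5 / 4) : ℝ)) ≤ A * L ^ (e0 - 1) := by
    gcongr
  linarith

/-- thresholds -/
theorem thresholds (C CV : ℝ) : ∃ L1 : ℝ, 1 ≤ L1 ∧ ∀ L : ℝ, L1 ≤ L → L ^ (2 * e0) + 1 ≤ L / 2 ∧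
    4 * C + 2 ≤ e0 / 2 * L ^ (e0 / 2) ∧ C * L ^ (e0 - 1) ≤ 1 ∧
    243 * (12 * CV + 1) + 3 ≤ L ^ (1 / 4 : ℝ) := by
  have he := e0_pos
  have he' := e0_le
  have t1 : ∀ᶠ L : ℝ in atTop, L ^ (2 * e0) + 1 ≤ L / 2 := by
    filter_upwards [eventually_ge_atTop (16 : ℝ)] with L hL
    have hL1 : 1 ≤ L := by linarith
    have h1 : L ^ (2 * e0) ≤ L ^ (1 / 2 : ℝ) := Real.rpow_le_rpow_of_exponent_le hL1 (by linarith)
    have h2 : 1 ≤ L ^ (1 / 2 : ℝ) := Real.one_le_rpow hL1 (by norm_num)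
    have h3 : L ^ (1 / 2 : ℝ) * L ^ (1 / 2 : ℝ) = L := by
      rw [← Real.rpow_add (by linarith)]; norm_num
    have h4 : 4 ≤ L ^ (1 / 2 : ℝ) := by
      by_contra h
      push Not at h
      nlinarith
    nlinarith
  have t2 : ∀ᶠ L : ℝ in atTop, 4 * C + 2 ≤ e0 / 2 * L ^ (e0 / 2) := by
    have := tendsto_rpow_atTop (show 0 < e0 / 2 by positivity)
    filter_upwards [this.eventually_ge_atTop ((4 * C + 2) / (e0 / 2))] with L hL
    rw [div_le_iff₀ (by positivity)] at hL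
    linarith
  have t3 : ∀ᶠ L : ℝ in atTop, C * L ^ (e0 - 1) ≤ 1 := by
    have h1 := tendsto_rpow_neg_atTop (show 0 < 1 - e0 by linarith)
    have h2 := h1.const_mul C
    rw [mul_zero] at h2
    have h3 := h2.eventually_le_const (show (0 : ℝ) < 1 by norm_num)
    filter_upwards [h3] with L hL
    have h4 : -(1 - e0) = e0 - 1 := by ring
    rw [h4] at hL
    exact hL
  have t4 : ∀ᶠ L : ℝ in atTop, 243 * (12 * CV + 1) + 3 ≤ L ^ (1 / 4 : ℝ) :=
    (tendsto_rpow_atTop (show (0 : ℝ) < 1 / 4 by norm_num)).eventually_ge_atTop _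
  obtain ⟨L0, h0⟩ := eventually_atTop.mp ((t1.and t2).and (t3.and t4))
  refine ⟨max 1 L0, le_max_left _ _, fun L hL => ?_⟩
  have := h0 L ((le_max_right _ _).trans hL)
  exact ⟨this.1.1, this.1.2, this.2.1, this.2.2⟩

theorem threshold_s : ∃ K0 : ℝ, 1 ≤ K0 ∧ ∀ x : ℝ, K0 ≤ x → 4 * x ^ e0 ≤ x ^ (1 / 20 : ℝ) := by
  have he := e0_pos
  have he' := e0_le
  have h1 := (tendsto_rpow_atTop (show (0 : ℝ) < 1 / 20 - e0 by linarith)).eventually_ge_atTop 4
  obtain ⟨K0, h0⟩ := eventually_atTop.mp h1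
  refine ⟨max 1 K0, le_max_left _ _, fun x hx => ?_⟩
  have hx1 : 1 ≤ x := (le_max_left _ _).trans hx
  have h2 := h0 x ((le_max_right _ _).trans hx)
  have h3 : x ^ (1 / 20 : ℝ) = x ^ (1 / 20 - e0) * x ^ e0 := by
    rw [← Real.rpow_add (by linarith)]
    congr 1
    ring
  rw [h3]
  have : 0 ≤ x ^ e0 := Real.rpow_nonneg (by linarith) _
  gcongr

/-! ## The expected overlap -/

theorem RR_succ (n : ℕ) : RR (n + 1) = RR n + rr (n + 1) := by
  unfold RR
  rw [Finset.sum_Icc_succ_top (by omega)]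

theorem RR_mono : Monotone RR := by
  apply monotone_nat_of_le_succ
  intro n
  rw [RR_succ]
  have : 0 ≤ rr (n + 1) := by unfold rr; positivity
  linarith

theorem rr_le_one (hRR : S_RR) (n : ℕ) : rr n ≤ 1 := by
  refine (hRR.2.1 n).trans ?_
  rw [div_le_one (by positivity)]
  have : (0 : ℝ) ≤ n := by positivity
  linarith

/-- the length of a block -/
theorem exists_T (hRR : S_RR) (t : ℕ) (y : ℝ) (hy : 0 < y) : ∃ T : ℕ, y ≤ RR (t + T) - RR t ∧
    RR (t + T) - RR t ≤ y + 1 ∧ 1 ≤ T ∧ ∀ m : ℕ, m < T → RR (t + m) - RR t < y := by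
  have hex : ∃ T : ℕ, y ≤ RR (t + T) - RR t := by
    obtain ⟨n, hn⟩ := exists_nat_ge (((t : ℝ) + 1) * Real.exp (4 * y))
    refine ⟨n, ?_⟩
    have h1 := hRR.2.2.2.2.2.1 t (t + n) (by omega)
    refine le_trans ?_ h1
    have h2 : Real.exp (4 * y) ≤ (((t + n : ℕ) : ℝ) + 1) / ((t : ℝ) + 1) := by
      rw [le_div_iff₀ (by positivity)]
      push_cast
      have : (0 : ℝ) ≤ t := by positivity
      linarith
    have h3 := Real.log_le_log (Real.exp_pos _) h2
    rw [Real.log_exp] at h3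
    linarith
  classical
  refine ⟨Nat.find hex, Nat.find_spec hex, ?_, ?_, ?_⟩
  · rcases Nat.eq_zero_or_pos (Nat.find hex) with h | h
    · have := Nat.find_spec hex
      rw [h] at this
      simp at this
      linarith
    · obtain ⟨m, hm⟩ : ∃ m, Nat.find hex = m + 1 := ⟨Nat.find hex - 1, by omega⟩
      have h1 : ¬ y ≤ RR (t + m) - RR t := Nat.find_min hex (by omega)
      rw [hm, show t + (m + 1) = (t + m) + 1 by ring, RR_succ]
      have := rr_le_one hRR (t + m + 1)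
      push Not at h1
      linarith
  · rcases Nat.eq_zero_or_pos (Nat.find hex) with h | h
    · have := Nat.find_spec hex
      rw [h] at this
      simp at this
      linarith
    · exact h
  · intro m hm
    have := Nat.find_min hex hm
    push Not at this
    exact this

/-! ## The claim of the induction -/

section chain

variable {C0 : ℝ} {N0 M : ℕ} [NeZero M] {Ω : Type} [MeasurableSpace Ω]

/-- the claim for the time `t` -/
def CH (W : Wlk (ZMod M × ZMod M) C0 N0) (P : Measure Ω) (η : ℕ → ZMod M × ZMod M → Ω → ℝ) (N t : ℕ)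
    (K A L Le : ℝ) : Prop :=
  ∃ D : (ZMod M × ZMod M → ℝ) → (ℕ → ZMod M × ZMod M → ℝ) → ℝ,
  Measurable (fun p : (ZMod M × ZMod M → ℝ) × (ℕ → ZMod M × ZMod M → ℝ) => D p.1 p.2) ∧
  (∀ w x, D w x = D w (cut (N - t) x)) ∧
  ∀ w, Good W t (Real.exp (L ^ e0)) w →
    Sq P (fun ω => D w (cfg η ω)) (K * Real.log (L / Le)) ∧ ∫ ω, D w (cfg η ω) ∂P = 0 ∧
    1 / K * Real.log (L / Le) - K ≤ ∫ ω, (D w (cfg η ω)) ^ 2 ∂P ∧
    Sq P (fun ω => lgZ W (N - t) w (cfg η ω) + 1 / 2 * Real.log (L / Le) - D w (cfg η ω))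
      (A * (2 - L ^ (-(e0 / 2))))

/-- the end cases: no martingale part -/
theorem CH_zero (W : Wlk (ZMod M × ZMod M) C0 N0) (P : Measure Ω) [IsProbabilityMeasure P]
    (η : ℕ → ZMod M × ZMod M → Ω → ℝ) (N t : ℕ)
    (K A L Le v : ℝ) (hK : 1 ≤ K) (hL : 1 ≤ L) (hLe : 1 ≤ Le) (hLeL : Le ≤ L) (hL2 : L ≤ 2 * Le)
    (hv : 2 * v + 1 ≤ A) (hA : 1 ≤ A)
    (h : ∀ w, Good W t (Real.exp (L ^ e0)) w → Sq P (fun ω => lgZ W (N - t) w (cfg η ω)) v) :
    CH W P η N t K A L Le := by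
  have hL0 : 0 < L := by linarith
  have hLe0 : 0 < Le := by linarith
  have hl0 : 0 ≤ Real.log (L / Le) := by
    apply Real.log_nonneg
    rw [le_div_iff₀ hLe0]
    linarith
  have hl1 : Real.log (L / Le) ≤ 1 := by
    have h1 : Real.log (L / Le) ≤ Real.log 2 := by
      apply Real.log_le_log (by positivity)
      rw [div_le_iff₀ hLe0]
      exact hL2
    have := Real.log_two_lt_d9
    linarith
  refine ⟨fun _ _ => 0, measurable_const, fun _ _ => rfl, fun w hw => ⟨?_, ?_, ?_, ?_⟩⟩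
  · exact sq_zero (by positivity)
  · simp
  · have h2 : 1 / K * Real.log (L / Le) ≤ 1 := by
      have h3 : 1 / K ≤ 1 := by
        rw [div_le_one (by linarith)]
        exact hK
      calc 1 / K * Real.log (L / Le) ≤ 1 * 1 := by gcongr
        _ = 1 := by ring
    simp
    have h4 : K⁻¹ * Real.log (L / Le) = 1 / K * Real.log (L / Le) := by ring
    rw [h4]
    linarith
  · have h5 := sq_add_const (1 / 2 * Real.log (L / Le)) (h w hw)
    have h6 : (fun ω => lgZ W (N - t) w (cfg η ω) + 1 / 2 * Real.log (L / Le) - (0 : ℝ)) =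
        fun ω => lgZ W (N - t) w (cfg η ω) + 1 / 2 * Real.log (L / Le) := by
      funext ω
      ring
    show Sq P (fun ω => lgZ W (N - t) w (cfg η ω) + 1 / 2 * Real.log (L / Le) - (0 : ℝ)) _
    rw [h6]
    refine sq_mono h5 ?_
    have h7 : L ^ (-(e0 / 2)) ≤ 1 := Real.rpow_le_one_of_one_le_of_nonpos hL
      (by have := e0_pos; linarith)
    have h8 : (1 / 2 * Real.log (L / Le)) ^ 2 ≤ 1 / 4 := by nlinarith
    have h9 : A * 1 ≤ A * (2 - L ^ (-(e0 / 2))) := by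
      have : (1 : ℝ) ≤ 2 - L ^ (-(e0 / 2)) := by linarith
      gcongr
    linarith

/-- the second moment of the logarithm from the claim -/
theorem CH_lgZ (W : Wlk (ZMod M × ZMod M) C0 N0) (P : Measure Ω) [IsProbabilityMeasure P]
    (η : ℕ → ZMod M × ZMod M → Ω → ℝ) (N t : ℕ)
    (K A L Le : ℝ) (hL : 1 ≤ L) (hLe : 1 ≤ Le) (hLeL : Le ≤ L) (hA : 1 ≤ A) (hKA : K ≤ A)
    (h : CH W P η N t K A L Le) (w : ZMod M × ZMod M → ℝ) (hw : Good W t (Real.exp (L ^ e0)) w) :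
    Sq P (fun ω => lgZ W (N - t) w (cfg η ω)) (12 * A * (1 + Real.log L) ^ 2) := by
  obtain ⟨D, _, _, hD⟩ := h
  obtain ⟨h1, _, _, h4⟩ := hD w hw
  have hL0 : 0 < L := by linarith
  have hLe0 : 0 < Le := by linarith
  have hl0 : 0 ≤ Real.log (L / Le) := by
    apply Real.log_nonneg
    rw [le_div_iff₀ hLe0]
    linarith
  have hl1 : Real.log (L / Le) ≤ Real.log L := by
    apply Real.log_le_log (by positivity)
    rw [div_le_iff₀ hLe0]
    nlinarith
  have h5 : Sq P (fun _ : Ω => -(1 / 2 * Real.log (L / Le))) ((Real.log L) ^ 2) := by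
    refine ⟨memLp_const _, ?_⟩
    have hc : ∫ _ω : Ω, (-(1 / 2 * Real.log (L / Le))) ^ 2 ∂P = (-(1 / 2 * Real.log (L / Le))) ^ 2 := by
      simp
    rw [hc]
    nlinarith
  have h6 := sq_add3 h4 h1 h5
  have h7 : (fun ω => (lgZ W (N - t) w (cfg η ω) + 1 / 2 * Real.log (L / Le) - D w (cfg η ω)) +
      D w (cfg η ω) + -(1 / 2 * Real.log (L / Le))) = fun ω => lgZ W (N - t) w (cfg η ω) := by
    funext ω
    ring
  rw [h7] at h6
  refine sq_mono h6 ?_
  have h8 : 0 < L ^ (-(e0 / 2)) := Real.rpow_pos_of_pos hL0 _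
  have hl2 : 0 ≤ Real.log L := hl0.trans hl1
  have h9 : A * (2 - L ^ (-(e0 / 2))) ≤ 2 * A := by nlinarith
  have h10 : K * Real.log (L / Le) ≤ A * Real.log L := by gcongr
  have h11 : (Real.log L) ^ 2 ≤ A * (Real.log L) ^ 2 := by nlinarith [sq_nonneg (Real.log L)]
  have h12 : 3 * (2 * A + A * Real.log L + A * (Real.log L) ^ 2) ≤ 12 * A * (1 + Real.log L) ^ 2 := by
    have : 0 ≤ A * (Real.log L) ^ 2 := by positivity
    have : 0 ≤ A * Real.log L := by positivity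
    nlinarith
  linarith

/-- good weights with a larger constant -/
theorem Good_mono (W : Wlk (ZMod M × ZMod M) C0 N0) (t : ℕ) (B B' : ℝ) (w : ZMod M × ZMod M → ℝ)
    (h : Good W t B w) (hB : B ≤ B') : Good W t B' w := by
  refine ⟨h.nonneg, h.sum, h.cls, fun n h1 h2 => (h.ov n h1 h2).trans ?_, h.spread.trans ?_⟩
  · gcongr
  · gcongr

theorem lgZ_meas (hMEAS : S_MEAS) (W : Wlk (ZMod M × ZMod M) C0 N0) (P : Measure Ω)
    [IsProbabilityMeasure P] (s2 κ : ℝ) (η : ℕ → ZMod M × ZMod M → Ω → ℝ) (hN : Noise P s2 κ η) (j : ℕ) :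
    Measurable (fun p : (ZMod M × ZMod M → ℝ) × (ℕ → ZMod M × ZMod M → ℝ) => lgZ W j p.1 p.2) ∧
    ∀ (w : ZMod M × ZMod M → ℝ) (x : ℕ → ZMod M × ZMod M → ℝ), lgZ W j w x = lgZ W j w (cut j x) := by
  obtain ⟨_, _, h3, h4, _⟩ := hMEAS (ZMod M × ZMod M) C0 N0 W Ω P s2 κ η hN
  constructor
  · unfold lgZ
    apply Real.measurable_log.comp
    apply Finset.measurable_sum
    intro y _
    exact ((measurable_pi_apply y).comp measurable_fst).mul ((h4 j y).comp measurable_snd)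
  · intro w x
    unfold lgZ
    rw [h3 x j]

/-- the cost of the weights that are not good after a block -/
theorem beta_bound (hMK : S_MK) (hGM : S_GM) (hMEAS : S_MEAS)
    (W : Wlk (ZMod M × ZMod M) C0 N0) (P : Measure Ω) [IsProbabilityMeasure P] (s2 κ : ℝ)
    (η : ℕ → ZMod M × ZMod M → Ω → ℝ) (hN : Noise P s2 κ η) (N t T : ℕ) (A L L' CV a' : ℝ)
    (hL' : 1 ≤ L') (hL'L : L' ≤ L) (hA : 1 ≤ A) (hCV : 1 ≤ CV) (ha : |a'| ≤ Real.log L)
    (n4 : 243 * (12 * CV + 1) + 3 ≤ L ^ (1 / 4 : ℝ)) (w : ZMod M × ZMod M → ℝ) (hw0 : ∀ x, 0 ≤ w x)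
    (hw1 : ∑ x, w x = 1)
    (hG : P.real {ω | ¬ Good W (t + T) (Real.exp (L' ^ e0)) (nw W T w (sft (N - (t + T)) (cfg η ω)))} ≤
      L ^ (-(3 / 2) : ℝ))
    (hWLD : Sq P (fun ω => {w' | ¬ Good W (t + T) (Real.exp (L' ^ (20 * e0))) w'}.indicator
      (fun w' => lgZ W (N - (t + T)) w' (cfg η ω)) (nw W T w (sft (N - (t + T)) (cfg η ω)))) (L ^ (-2 : ℝ)))
    (hVI : ∀ w', Good W (t + T) (Real.exp (L' ^ (20 * e0))) w' →
      Sq P (fun ω => lgZ W (N - (t + T)) w' (cfg η ω)) (CV * (12 * A) * (1 + Real.log L') ^ 2)) :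
    Sq P (fun ω => {w' | Good W (t + T) (Real.exp (L' ^ e0)) w'}ᶜ.indicator
      (fun w' => lgZ W (N - (t + T)) w' (cfg η ω) + a') (nw W T w (sft (N - (t + T)) (cfg η ω))))
      (A * L ^ (e0 - 1)) := by
  set j := N - (t + T) with hj
  set G' : Set (ZMod M × ZMod M → ℝ) := {w' | Good W (t + T) (Real.exp (L' ^ e0)) w'} with hG'
  set G1 : Set (ZMod M × ZMod M → ℝ) := {w' | Good W (t + T) (Real.exp (L' ^ (20 * e0))) w'} with hG1
  have hG'm : MeasurableSet G' := hGM _ _ _ W (t + T) _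
  have hG1m : MeasurableSet G1 := hGM _ _ _ W (t + T) _
  have hsub : G' ⊆ G1 := by
    intro w' hw'
    refine Good_mono W (t + T) _ _ w' hw' ?_
    apply Real.exp_le_exp.mpr
    apply Real.rpow_le_rpow_of_exponent_le hL'
    have := e0_pos
    linarith
  obtain ⟨hmeas, hcut⟩ := lgZ_meas hMEAS W P s2 κ η hN j
  obtain ⟨_, hMK2⟩ := hMK (ZMod M × ZMod M) C0 N0 W Ω P s2 κ η w j T hN hw0 hw1
  have hPr : P.real {ω | nw W T w (sft j (cfg η ω)) ∈ G'ᶜ} ≤ L ^ (-(3 / 2) : ℝ) := hG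
  have hv0 : 0 ≤ CV * (12 * A) * (1 + Real.log L') ^ 2 := by positivity
  -- the mildly bad weights
  have f1 : Sq P (fun ω => (G1 ∩ G'ᶜ).indicator (fun w' => lgZ W j w' (cfg η ω))
      (nw W T w (sft j (cfg η ω)))) (CV * (12 * A) * (1 + Real.log L') ^ 2 * L ^ (-(3 / 2) : ℝ)) := by
    have h1 := (hMK2 (G1 ∩ G'ᶜ) (fun w' x => lgZ W j w' x) (CV * (12 * A) * (1 + Real.log L') ^ 2) 0
      (hG1m.inter hG'm.compl) hmeas hcut hv0 (fun w' hw' _ _ _ => hVI w' hw'.1)).1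
    refine sq_mono h1 ?_
    have h2 : P.real {ω | nw W T w (sft j (cfg η ω)) ∈ G1 ∩ G'ᶜ} ≤
        P.real {ω | nw W T w (sft j (cfg η ω)) ∈ G'ᶜ} := by
      apply measureReal_mono
      · intro ω hω
        exact hω.2
      · exact measure_ne_top _ _
    have h3 := h2.trans hPr
    gcongr
  have f3 : Sq P (fun ω => (G'ᶜ).indicator (fun _ => a')
      (nw W T w (sft j (cfg η ω)))) (a' ^ 2 * L ^ (-(3 / 2) : ℝ)) := by
    have h0 : Sq P (fun _ : Ω => a') (a' ^ 2) := by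
      refine ⟨memLp_const _, ?_⟩
      simp
    have h1 := (hMK2 (G'ᶜ) (fun _ _ => a') (a' ^ 2) 0 hG'm.compl measurable_const (fun _ _ => rfl)
      (sq_nonneg _) (fun w' _ _ _ _ => h0)).1
    refine sq_mono h1 ?_
    gcongr
  have hsum := sq_add3 f1 hWLD f3
  have heq : (fun ω => (G1 ∩ G'ᶜ).indicator (fun w' => lgZ W j w' (cfg η ω))
      (nw W T w (sft j (cfg η ω))) + {w' | ¬ Good W (t + T) (Real.exp (L' ^ (20 * e0))) w'}.indicator
      (fun w' => lgZ W j w' (cfg η ω)) (nw W T w (sft j (cfg η ω))) +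
      (G'ᶜ).indicator (fun _ => a') (nw W T w (sft j (cfg η ω)))) =
      fun ω => G'ᶜ.indicator (fun w' => lgZ W j w' (cfg η ω) + a') (nw W T w (sft j (cfg η ω))) := by
    funext ω
    set u := nw W T w (sft j (cfg η ω)) with hu
    by_cases hg : u ∈ G'
    · have hg1 : u ∈ G1 := hsub hg
      have hn1 : u ∉ {w' | ¬ Good W (t + T) (Real.exp (L' ^ (20 * e0))) w'} := fun h => h hg1
      rw [Set.indicator_of_notMem (fun h => h.2 hg), Set.indicator_of_notMem hn1,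
        Set.indicator_of_notMem (show u ∉ G'ᶜ from fun h => h hg),
        Set.indicator_of_notMem (show u ∉ G'ᶜ from fun h => h hg)]
      ring
    · by_cases hg1 : u ∈ G1
      · have hn1 : u ∉ {w' | ¬ Good W (t + T) (Real.exp (L' ^ (20 * e0))) w'} := fun h => h hg1
        rw [Set.indicator_of_mem (show u ∈ G1 ∩ G'ᶜ from ⟨hg1, hg⟩),
          Set.indicator_of_notMem hn1,
          Set.indicator_of_mem (show u ∈ G'ᶜ from hg), Set.indicator_of_mem (show u ∈ G'ᶜ from hg)]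
        ring
      · rw [Set.indicator_of_notMem (fun h => hg1 h.1),
          Set.indicator_of_mem (show u ∈ {w' | ¬ Good W (t + T) (Real.exp (L' ^ (20 * e0))) w'} from hg1),
          Set.indicator_of_mem (show u ∈ G'ᶜ from hg), Set.indicator_of_mem (show u ∈ G'ᶜ from hg)]
        ring
  rw [heq] at hsum
  exact sq_mono hsum (num_beta hL' hL'L hA hCV ha n4)

/-- one step of the induction -/
theorem CH_step (hMK : S_MK) (hSTP : S_STP) (hGM : S_GM) (hMEAS : S_MEAS)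
    (W : Wlk (ZMod M × ZMod M) C0 N0) (P : Measure Ω) [IsProbabilityMeasure P] (s2 κ : ℝ)
    (η : ℕ → ZMod M × ZMod M → Ω → ℝ) (hN : Noise P s2 κ η) (N t T : ℕ) (htT : t + T ≤ N)
    (K A L L' Le C CV : ℝ) (hK : K = 8 * C) (hC : 1 ≤ C) (hCV : 1 ≤ CV) (hA : 1 ≤ A) (hLe : 1 ≤ Le)
    (hLeL' : Le ≤ L') (hL'L : L' ≤ L) (h1 : L ^ (2 * e0) ≤ L - L') (h2 : L - L' ≤ L ^ (2 * e0) + 1)
    (h3 : L / 2 ≤ L') (n2 : 4 * C + 2 ≤ e0 / 2 * L ^ (e0 / 2)) (n3 : C * L ^ (e0 - 1) ≤ 1)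
    (n4 : 243 * (12 * CV + 1) + 3 ≤ L ^ (1 / 4 : ℝ))
    (hCH : CH W P η N (t + T) K A L' Le)
    (hB : ∀ w, Good W t (Real.exp (L ^ e0)) w →
      Sq P (fun ω => lgX W T w (sft (N - (t + T)) (cfg η ω))) (C * L ^ (2 * e0 - 1)) ∧
      |∫ ω, lgX W T w (sft (N - (t + T)) (cfg η ω)) ∂P + 1 / 2 * Real.log (L / L')| ≤ C * L ^ (e0 - 1) ∧
      1 / C * L ^ (2 * e0 - 1) ≤ ∫ ω, (lgX W T w (sft (N - (t + T)) (cfg η ω)) -
        ∫ ω', lgX W T w (sft (N - (t + T)) (cfg η ω')) ∂P) ^ 2 ∂P)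
    (hG : ∀ w, Good W t (Real.exp (L ^ e0)) w →
      P.real {ω | ¬ Good W (t + T) (Real.exp (L' ^ e0)) (nw W T w (sft (N - (t + T)) (cfg η ω)))} ≤
      L ^ (-(3 / 2) : ℝ))
    (hWLD : ∀ w, Good W t (Real.exp (L ^ e0)) w →
      Sq P (fun ω => {w' | ¬ Good W (t + T) (Real.exp (L' ^ (20 * e0))) w'}.indicator
      (fun w' => lgZ W (N - (t + T)) w' (cfg η ω)) (nw W T w (sft (N - (t + T)) (cfg η ω)))) (L ^ (-2 : ℝ)))
    (hVI : ∀ w', Good W (t + T) (Real.exp (L' ^ (20 * e0))) w' →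
      Sq P (fun ω => lgZ W (N - (t + T)) w' (cfg η ω)) (CV * (12 * A) * (1 + Real.log L') ^ 2)) :
    CH W P η N t K A L Le := by
  obtain ⟨D', hD'm, hD'c, hD'⟩ := hCH
  have hLe0 : 0 < Le := by linarith
  have hL'1 : 1 ≤ L' := hLe.trans hLeL'
  have hL'0 : 0 < L' := by linarith
  have hL1 : 1 ≤ L := hL'1.trans hL'L
  have hL0 : 0 < L := by linarith
  have hK1 : 1 ≤ K := by linarith
  have hK0 : 0 < K := by linarith
  have hC0' : 0 < C := by linarith
  obtain ⟨hlg1, hlg2⟩ := num_log hL'0 h1 h2 h3 hL1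
  have hlsum : Real.log (L / Le) = Real.log (L / L') + Real.log (L' / Le) := by
    rw [Real.log_div hL0.ne' hLe0.ne', Real.log_div hL0.ne' hL'0.ne', Real.log_div hL'0.ne' hLe0.ne']
    ring
  have hlLe : 0 ≤ Real.log (L' / Le) := by
    apply Real.log_nonneg
    rw [le_div_iff₀ hLe0]
    linarith
  have hlLe2 : Real.log (L' / Le) ≤ Real.log L := by
    apply Real.log_le_log (by positivity)
    rw [div_le_iff₀ hLe0]
    nlinarith
  have ha' : |1 / 2 * Real.log (L' / Le)| ≤ Real.log L := by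
    rw [abs_of_nonneg (by positivity)]
    linarith
  obtain ⟨D, hDm, hDc, hD⟩ := hSTP (ZMod M × ZMod M) C0 N0 W Ω P s2 κ η (N - (t + T)) T
    {w | Good W t (Real.exp (L ^ e0)) w} {w | Good W (t + T) (Real.exp (L' ^ e0)) w} D'
    (1 / 2 * Real.log (L / Le)) (1 / 2 * Real.log (L' / Le)) hN (hGM _ _ _ W t _) (hGM _ _ _ W (t + T) _)
    (fun w hw => ⟨hw.nonneg, hw.sum⟩) hD'm hD'c
  have hj : N - (t + T) + T = N - t := by omega
  rw [hj] at hDc hD
  refine ⟨D, hDm, hDc, fun w hw => ?_⟩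
  obtain ⟨b1, b2, b3⟩ := hB w hw
  have hg := hG w hw
  have hβ := beta_bound hMK hGM hMEAS W P s2 κ η hN N t T A L L' CV (1 / 2 * Real.log (L' / Le))
    hL'1 hL'L hA hCV ha' n4 w hw.nonneg hw.sum hg (hWLD w hw) hVI
  have hvar := var_le b1
  have hΦ : 0 ≤ A * (2 - L' ^ (-(e0 / 2))) := by
    have : L' ^ (-(e0 / 2)) ≤ 1 := Real.rpow_le_one_of_one_le_of_nonpos hL'1
      (by have := e0_pos; linarith)
    have h5 : 0 ≤ 2 - L' ^ (-(e0 / 2)) := by linarith
    positivity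
  obtain ⟨c1, c2, c3, c4, c5, c6⟩ := hD w hw (C * L ^ (2 * e0 - 1)) (1 / K * Real.log (L' / Le) - K)
    (K * Real.log (L' / Le)) (A * (2 - L' ^ (-(e0 / 2)))) (A * L ^ (e0 - 1)) (C * L ^ (e0 - 1))
    (∫ ω, lgX W T w (sft (N - (t + T)) (cfg η ω)) ∂P)
    (∫ ω, (lgX W T w (sft (N - (t + T)) (cfg η ω)) -
        ∫ ω', lgX W T w (sft (N - (t + T)) (cfg η ω')) ∂P) ^ 2 ∂P)
    b1 (by positivity) hΦ (fun w' hw' _ _ => hD' w' hw') hβ rfl
    (by
      refine le_trans (le_of_eq ?_) b2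
      congr 1
      rw [hlsum]
      ring) rfl
  refine ⟨⟨c1, ?_⟩, c2, ?_, ?_⟩
  · refine c3.trans ?_
    have := num_up (C := C) (K := K) hLe0 hL'0 hL0 (by linarith) hlg1 hK0.le
    linarith
  · refine num_lo hK1 hL1 hLe hLeL' hL'L hlg1 ?_ ?_ c4 c5
    · refine le_trans ?_ b3
      rw [hK]
      have h6 : 2 / (8 * C) * Real.log (L / L') ≤ 2 / (8 * C) * (4 * L ^ (2 * e0 - 1)) := by gcongr
      refine h6.trans (le_of_eq ?_)
      field_simp
      ring
    · have h7 : (1 : ℝ) ≤ P.real {ω | nw W T w (sft (N - (t + T)) (cfg η ω)) ∈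
          {w | Good W (t + T) (Real.exp (L' ^ e0)) w}} +
          P.real {ω | ¬ Good W (t + T) (Real.exp (L' ^ e0)) (nw W T w (sft (N - (t + T)) (cfg η ω)))} := by
        have h8 := measureReal_union_le (μ := P) {ω | nw W T w (sft (N - (t + T)) (cfg η ω)) ∈
          {w | Good W (t + T) (Real.exp (L' ^ e0)) w}}
          {ω | ¬ Good W (t + T) (Real.exp (L' ^ e0)) (nw W T w (sft (N - (t + T)) (cfg η ω)))}
        refine le_trans (le_of_eq ?_) h8
        have h9 : {ω | nw W T w (sft (N - (t + T)) (cfg η ω)) ∈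
          {w | Good W (t + T) (Real.exp (L' ^ e0)) w}} ∪
          {ω | ¬ Good W (t + T) (Real.exp (L' ^ e0)) (nw W T w (sft (N - (t + T)) (cfg η ω)))} =
          Set.univ := by
          apply Set.eq_univ_of_forall
          intro ω
          by_cases h : Good W (t + T) (Real.exp (L' ^ e0)) (nw W T w (sft (N - (t + T)) (cfg η ω)))
          · exact Or.inl h
          · exact Or.inr h
        rw [h9]
        exact probReal_univ.symm
      linarith
  · exact sq_mono c6 (num_R hL'0 hL0 h1 hA hC rfl n3 rfl n2)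

end chain

/-! ## The theorem -/

theorem t_CHA : S_MK → S_CHA := by
  intro hMK hSTP hGM hMEAS hIND hRR hDUAL hBK2 hGD hDE hWLD hVI C0 κ θ1 hC0 hκ hθ1
  have he := e0_pos
  have he' := e0_le
  obtain ⟨C, L0B, hC, hL0B, hBK⟩ := hBK2 C0 κ hC0 hκ
  obtain ⟨L0G, hL0G, hGD⟩ := hGD C0 κ hC0 hκ
  obtain ⟨CD, hCD, hDE⟩ := hDE C0 κ θ1 hC0 hκ hθ1
  obtain ⟨L0W, hL0W, hWLD⟩ := hWLD C0 κ θ1 e0 hC0 hκ hθ1 le_rfl e0_le
  obtain ⟨L0V, hL0V, hVI⟩ := hVI C0 κ θ1 hC0 hκ hθ1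
  obtain ⟨CV, hCV, hVI⟩ := hVI L0V le_rfl
  obtain ⟨L1t, hL1t, hth⟩ := thresholds C CV
  obtain ⟨Ks, hKs, hthS⟩ := threshold_s
  obtain ⟨L1, hL1⟩ : ∃ L1 : ℝ, L1 = L1t + 2 * L0B + L0G + L0W + L0V := ⟨_, rfl⟩
  obtain ⟨v2, hv2⟩ : ∃ v2 : ℝ, v2 = CD * (1 + 4 * L1) ^ 17 := ⟨_, rfl⟩
  have hL1p : 1 ≤ L1 := by linarith
  have hv2p : 0 < v2 := by rw [hv2]; positivity
  obtain ⟨A, hA⟩ : ∃ A : ℝ, A = 8 * C + (2 * C + 1) + (2 * v2 + 1) := ⟨_, rfl⟩
  have hA1 : 1 ≤ A := by linarith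
  obtain ⟨Kf, hKf⟩ : ∃ Kf : ℝ, Kf = 2 * A + CD + CV + Ks := ⟨_, rfl⟩
  have hKf1 : 1 ≤ Kf := by linarith
  refine ⟨Kf, L1, hKf1, hL1p, ?_⟩
  intro N0 M _ W hW Ω _ P _ s2 η N t L Le hs2 hs2K hN h4N hθN hLe htN hts hL hL1L
  have hKfs : Kf ≤ 1 / s2 := by
    rw [le_div_iff₀ hs2]
    rw [le_div_iff₀ (by linarith)] at hs2K
    linarith
  have hsCD : s2 ≤ 1 / CD := by
    refine hs2K.trans ?_
    apply one_div_le_one_div_of_le (by linarith)
    linarith
  have hsCV : s2 ≤ 1 / CV := by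
    refine hs2K.trans ?_
    apply one_div_le_one_div_of_le (by linarith)
    linarith
  have hLe1 : 1 ≤ Le := by
    rw [hLe]
    exact hL1p.trans (le_max_right _ _)
  have hLeL1 : L1 ≤ Le := by
    rw [hLe]
    exact le_max_right _ _
  have hLeN : 1 / s2 - RR N ≤ Le := by
    rw [hLe]
    exact le_max_left _ _
  -- the quantity b
  have hb : ∀ t : ℕ, (1 / s2) ^ (1 / 20 : ℝ) ≤ RR t → 1 ≤ 1 / s2 - RR t →
      0 ≤ (1 / s2 - RR t) ^ e0 ∧ (1 / s2 - RR t) ^ e0 ≤ RR t / 4 ∧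
      (1 / s2 - RR t) ^ e0 ≤ 1 / s2 - RR t := by
    intro t ht1 ht2
    have hR0 : 0 ≤ RR t := by
      have := RR_mono (Nat.zero_le t)
      have h0 : RR 0 = 0 := by simp [RR]
      linarith
    refine ⟨Real.rpow_nonneg (by linarith) _, ?_, ?_⟩
    · have h1 : (1 / s2 - RR t) ^ e0 ≤ (1 / s2) ^ e0 :=
        Real.rpow_le_rpow (by linarith) (by linarith) he.le
      have h2 := hthS (1 / s2) (by linarith)
      linarith
    · have h1 : (1 / s2 - RR t) ^ e0 ≤ (1 / s2 - RR t) ^ (1 : ℝ) :=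
        Real.rpow_le_rpow_of_exponent_le ht2 (by linarith)
      rwa [Real.rpow_one] at h1
  -- the direct estimate
  have hdirect : ∀ (t : ℕ) (w : ZMod M × ZMod M → ℝ), t ≤ N → (1 / s2) ^ (1 / 20 : ℝ) ≤ RR t →
      1 ≤ 1 / s2 - RR t → 1 / s2 - RR t ≤ 2 * L1 → Good W t (Real.exp ((1 / s2 - RR t) ^ e0)) w →
      Sq P (fun ω => lgZ W (N - t) w (cfg η ω)) v2 := by
    intro t w ht0 ht1 ht2 ht3 hw
    obtain ⟨b1, b2, b3⟩ := hb t ht1 ht2
    have h1 := hDE N0 M W hW Ω P s2 η w t N ((1 / s2 - RR t) ^ e0) hs2 hsCD hN ht1 ht0 (by omega) hθN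
      b1 b2 hw
    refine sq_mono h1 ?_
    rw [hv2, abs_of_nonneg (by linarith)]
    have h2 : 1 + (1 / s2 - RR t) ^ e0 + (1 / s2 - RR t) ≤ 1 + 4 * L1 := by linarith
    have h3 : 0 ≤ 1 + (1 / s2 - RR t) ^ e0 + (1 / s2 - RR t) := by linarith
    gcongr
  have claim : ∀ (n t : ℕ), N - t = n → t ≤ N → (1 / s2) ^ (1 / 20 : ℝ) ≤ RR t → L1 ≤ 1 / s2 - RR t →
      CH W P η N t (8 * C) A (1 / s2 - RR t) Le := by
    intro n
    induction n using Nat.strong_induction_on with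
    | _ n ih =>
    intro t htn htN hts hL1L
    obtain ⟨L, hL⟩ : ∃ L : ℝ, L = 1 / s2 - RR t := ⟨_, rfl⟩
    have hL1L' := hL1L
    rw [← hL] at hL1L ⊢
    have hLp : 1 ≤ L := hL1p.trans hL1L
    have hL0 : 0 < L := by linarith
    obtain ⟨n1, n2, n3, n4⟩ := hth L (by linarith)
    have hx0 : 0 < L ^ (2 * e0) := Real.rpow_pos_of_pos hL0 _
    obtain ⟨T, hT1, hT2, hT3, hT4⟩ := exists_T hRR t (L ^ (2 * e0)) hx0
    by_cases htT : N < t + T
    · -- the end of the horizon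
      have h1 := hT4 (N - t) (by omega)
      rw [show t + (N - t) = N by omega] at h1
      have hmono : RR t ≤ RR N := RR_mono htN
      have hLN : L / 2 ≤ 1 / s2 - RR N := by linarith
      refine CH_zero W P η N t (8 * C) A L Le C (by linarith) hLp hLe1 ?_ ?_ ?_ hA1 ?_
      · rw [hLe]
        exact max_le (by linarith) hL1L
      · linarith
      · linarith
      · intro w hw
        have h2 := (hBK N0 M W hW Ω P s2 η w t (N - t) L (1 / s2 - RR (t + (N - t))) hs2 hN hL rfl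
          (by rw [show t + (N - t) = N by omega]; linarith) hts
          (by rw [show t + (N - t) = N by omega]; linarith) (by omega) hw).1
        have h3 : (fun ω => lgZ W (N - t) w (cfg η ω)) = fun ω => lgX W (N - t) w (cfg η ω) := by
          funext ω
          have h4 := (hDUAL (ZMod M × ZMod M) C0 N0 W (cfg η ω) w 0 (N - t)).2.2.1
          unfold lgZ lgX
          rw [h4, hw.sum]
          congr 1
          ring
        rw [h3]
        refine sq_mono h2 ?_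
        have h5 : L ^ (2 * e0 - 1) ≤ 1 :=
          Real.rpow_le_one_of_one_le_of_nonpos hLp (by linarith)
        nlinarith
    · push Not at htT
      obtain ⟨L', hL'⟩ : ∃ L' : ℝ, L' = 1 / s2 - RR (t + T) := ⟨_, rfl⟩
      have hhalf : L / 2 ≤ L' := by linarith
      by_cases hLL : L' < L1
      · refine CH_zero W P η N t (8 * C) A L Le v2 (by linarith) hLp hLe1 ?_ ?_ ?_ hA1 ?_
        · rw [hLe]
          have hmono : RR t ≤ RR N := RR_mono htN
          exact max_le (by linarith) hL1L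
        · linarith
        · linarith
        · intro w hw
          rw [hL] at hw
          exact hdirect t w htN hts (by linarith) (by linarith) hw
      · push Not at hLL
        have hmonoT : RR t ≤ RR (t + T) := RR_mono (by omega)
        have hmonoN : RR (t + T) ≤ RR N := RR_mono htT
        have htsT : (1 / s2) ^ (1 / 20 : ℝ) ≤ RR (t + T) := hts.trans hmonoT
        have hN' : NoiseI P s2 κ (fun n v => η (N - (t + T) + n) v) := by
          refine ⟨(hIND (ZMod M × ZMod M) Ω P s2 κ η hN.1 (N - (t + T))).2.2, ?_⟩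
          intro n v
          exact hN.2 (N - (t + T) + n) v
        have hCH' : CH W P η N (t + T) (8 * C) A L' Le := by
          rw [hL']
          exact ih (N - (t + T)) (by omega) (t + T) rfl htT htsT (by linarith)
        have hL0BL : L0B ≤ L' := by linarith
        refine CH_step hMK hSTP hGM hMEAS W P s2 κ η hN.1 N t T htT (8 * C) A L L' Le C CV rfl hC hCV hA1
          hLe1 ?_ (by linarith) (by linarith) (by linarith) hhalf n2 n3 n4 hCH' ?_ ?_ ?_ ?_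
        · rw [hLe]
          exact max_le (by linarith) hLL
        · intro w hw
          have h1 := hBK N0 M W hW Ω P s2 (fun n v => η (N - (t + T) + n) v) w t T L L' hs2 hN' hL hL'
            hL0BL hts hT2 (by omega) hw
          exact ⟨h1.1, (h1.2 hT1).1, (h1.2 hT1).2⟩
        · intro w hw
          exact hGD N0 M W hW Ω P s2 (fun n v => η (N - (t + T) + n) v) w t T L L' hs2 hN' hL hL'
            (by linarith) hts hT2 (by omega) hw hT1
        · intro w hw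
          have hxe : 0 < L ^ e0 := Real.rpow_pos_of_pos hL0 _
          have hxe2 : L ^ e0 ≤ L ^ (2 * e0) := Real.rpow_le_rpow_of_exponent_le hLp (by linarith)
          exact hWLD N0 M W hW Ω P s2 η w t T N L L' hs2 hN hL hL' (by linarith) hts (by linarith)
            (by linarith) htT h4N hθN hw
        · intro w' hw'
          refine hVI N0 M W hW Ω P s2 η N (t + T) (12 * A) hs2 hsCV hN htsT h4N hθN (by linarith) ?_
            (t + T) w' L' le_rfl htT hL' (by linarith) hw'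
          intro t2 w2 L2 ht2 ht2N hL2 hL2V hw2
          have hts2 : (1 / s2) ^ (1 / 20 : ℝ) ≤ RR t2 := htsT.trans (RR_mono ht2.le)
          have hL21 : 1 ≤ L2 := by linarith
          by_cases hL2L : L1 ≤ L2
          · have h1 : CH W P η N t2 (8 * C) A L2 Le := by
              rw [hL2]
              exact ih (N - t2) (by omega) t2 rfl ht2N hts2 (by linarith)
            have hmono2 : RR t2 ≤ RR N := RR_mono ht2N
            have h2 : Le ≤ L2 := by
              rw [hLe]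
              exact max_le (by linarith) hL2L
            exact CH_lgZ W P η N t2 (8 * C) A L2 Le hL21 hLe1 h2 hA1 (by linarith) h1 w2 hw2
          · push Not at hL2L
            have hw3 := hw2
            rw [hL2] at hw3
            have h1 := hdirect t2 w2 ht2N hts2 (by linarith) (by linarith) hw3
            refine sq_mono h1 ?_
            have h2 : 1 ≤ (1 + Real.log L2) ^ 2 := by
              have := Real.log_nonneg hL21
              nlinarith
            have h3 : 12 * A * 1 ≤ 12 * A * (1 + Real.log L2) ^ 2 := by gcongr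
            linarith
  -- conclusion
  have hfin := claim (N - t) t rfl htN hts (by linarith)
  rw [← hL] at hfin
  obtain ⟨D, hDm, hDc, hD⟩ := hfin
  refine ⟨D, hDm, hDc, fun w hw => ?_⟩
  obtain ⟨d1, d2, d3, d4⟩ := hD w hw
  have hLp : 1 ≤ L := hL1p.trans hL1L
  have hL0 : 0 < L := by linarith
  have hLe0 : 0 < Le := by linarith
  have hLeL : Le ≤ L := by
    rw [hLe]
    have hmono : RR t ≤ RR N := RR_mono htN
    exact max_le (by linarith) hL1L
  have hl0 : 0 ≤ Real.log (L / Le) := by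
    apply Real.log_nonneg
    rw [le_div_iff₀ hLe0]
    linarith
  refine ⟨sq_mono d1 ?_, d2, le_trans ?_ d3, sq_mono d4 ?_⟩
  · have : 8 * C ≤ Kf := by linarith
    gcongr
  · have h1 : 1 / Kf ≤ 1 / (8 * C) := one_div_le_one_div_of_le (by linarith) (by linarith)
    have h2 : 1 / Kf * Real.log (L / Le) ≤ 1 / (8 * C) * Real.log (L / Le) := by gcongr
    linarith
  · have : 0 < L ^ (-(e0 / 2)) := Real.rpow_pos_of_pos hL0 _
    nlinarith

end Pool.Agent.H597.CW
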